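import Pool.Agent.BEN.StmtsA
import Pool.Agent.Helper69_BEF.QPW

/-!
# Squad BEN, row ASN: the approximate solution as a function of time (compare
Helper61_BEF/ASZ.lean)
-/

set_option autoImplicit false

namespace Pool.Agent.BEN.H23

open Set Filter Topology MeasureTheory
open scoped InnerProductSpace ENNReal NNReal
open Pool.Agent.BE01 Pool.Agent.BEF Pool.Agent.BEN

noncomputable section

theorem asn_norm_sq_le {κ : Type} [Fintype κ] (z : κ → ℝ) : ‖z‖ ^ 2 ≤ ∑ i, z i ^ 2 := by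
  have h0 : 0 ≤ ∑ i, z i ^ 2 := Finset.sum_nonneg (fun i _ => sq_nonneg _)
  have h1 : ‖z‖ ≤ √(∑ i, z i ^ 2) := by
    rw [pi_norm_le_iff_of_nonneg (Real.sqrt_nonneg _)]
    intro i
    rw [Real.norm_eq_abs, ← Real.sqrt_sq_eq_abs]
    exact Real.sqrt_le_sqrt (Finset.single_le_sum (f := fun i => z i ^ 2)
      (fun j _ => sq_nonneg _) (Finset.mem_univ i))
  calc ‖z‖ ^ 2 ≤ (√(∑ i, z i ^ 2)) ^ 2 := pow_le_pow_left₀ (norm_nonneg _) h1 2
    _ = _ := Real.sq_sqrt h0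

theorem asn_qx {X : Type} [NormedCommRing X] [NormedAlgebra ℝ X] {m : ℕ} (φ : Fin m → X) :
    qx φ ∈ HG (Fin m ⊕ Fin m) X 1 := by
  have e : qx φ = ∑ i : Fin m, ((fun (ψ : ℝ) (z : Fin m ⊕ Fin m → ℝ) =>
      (z (Sum.inl i) * Real.cos ψ) • φ i) + fun (ψ : ℝ) (z : Fin m ⊕ Fin m → ℝ) =>
      (z (Sum.inr i) * Real.sin ψ) • φ i) := by
    funext ψ z
    simp only [qx, Finset.sum_apply, Pi.add_apply, add_smul]
  rw [e]
  exact Submodule.sum_mem _ fun i _ => Submodule.add_mem _ (H69.gen_cos _ _) (H69.gen_sin _ _)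

/-- the size of the leading coefficient -/
theorem asn_neg {X H : Type} [NormedCommRing X] [NormedAlgebra ℝ X]
    [NormedAddCommGroup H] [InnerProductSpace ℝ H]
    (W : Wx X H) {m p : ℕ} {a0 ω β : ℝ} {φ : Fin m → X} (ha0 : 0 < a0)
    (hω : 0 < ω) {F1 : Fin m ⊕ Fin m → MvPolynomial (Fin m ⊕ Fin m) ℝ}
    (hc : Dmp W p φ β)
    (hint : ∀ z, 2 * ω * Real.pi * ∑ i, z i * vf F1 z i = - ∫ ψ in (0 : ℝ)..(2 * Real.pi),
      ⟪W.e (a0 • ((ω • px φ ψ z) ^ (2 * p + 1))), W.e (px φ ψ z)⟫_ℝ)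
    (z : Fin m ⊕ Fin m → ℝ) :
    ∑ i, z i * vf F1 z i ≤
      - (a0 * ω ^ (2 * p) * β / (2 * Real.pi) * (∑ i, z i ^ 2) ^ (p + 1)) := by
  have h1 := hint z
  have h2 : (∫ ψ in (0 : ℝ)..(2 * Real.pi),
      ⟪W.e (a0 • ((ω • px φ ψ z) ^ (2 * p + 1))), W.e (px φ ψ z)⟫_ℝ) =
      (a0 * ω ^ (2 * p + 1)) * ∫ ψ in (0 : ℝ)..(2 * Real.pi),
        ⟪W.e (px φ ψ z ^ (2 * p + 1)), W.e (px φ ψ z)⟫_ℝ := by
    rw [← intervalIntegral.integral_const_mul]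
    congr 1
    funext ψ
    rw [smul_pow, map_smul, map_smul, real_inner_smul_left, real_inner_smul_left, mul_assoc]
  rw [h2] at h1
  have h3 := mul_le_mul_of_nonneg_left (hc z) (by positivity : 0 ≤ a0 * ω ^ (2 * p + 1))
  have hpi := Real.pi_pos
  have h4 : 0 < 2 * ω * Real.pi := by positivity
  have h5 : 2 * ω * Real.pi * ∑ i, z i * vf F1 z i ≤
      2 * ω * Real.pi *
        (- (a0 * ω ^ (2 * p) * β / (2 * Real.pi) * (∑ i, z i ^ 2) ^ (p + 1))) := by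
    rw [h1]
    have h6 : 2 * ω * Real.pi *
        (- (a0 * ω ^ (2 * p) * β / (2 * Real.pi) * (∑ i, z i ^ 2) ^ (p + 1))) =
        - (a0 * ω ^ (2 * p + 1) * (β * (∑ i, z i ^ 2) ^ (p + 1))) := by
      have h7 : ω ^ (2 * p + 1) = ω * ω ^ (2 * p) := by ring
      rw [h7]
      field_simp
    rw [h6]
    exact neg_le_neg h3
  exact le_of_mul_le_mul_left h5 h4

theorem asn_rp1 {p : ℕ} (hp : 1 ≤ p) {s : ℝ} (hs : 0 ≤ s) : (s ^ p) ^ (1 / (p : ℝ)) = s := by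
  rw [← Real.rpow_natCast, ← Real.rpow_mul hs]
  have : (p : ℝ) ≠ 0 := by
    have : p ≠ 0 := by omega
    exact_mod_cast this
  rw [mul_one_div_cancel this, Real.rpow_one]

theorem asn_rp2 {p d : ℕ} (hp : 1 ≤ p) {x : ℝ} (hx : 0 ≤ x) :
    (x ^ (2 * p)) ^ ((d : ℝ) / (2 * p)) = x ^ d := by
  rw [← Real.rpow_natCast, ← Real.rpow_mul hx]
  have : (p : ℝ) ≠ 0 := by
    have : p ≠ 0 := by omega
    exact_mod_cast this
  have h : ((2 * p : ℕ) : ℝ) * ((d : ℝ) / (2 * p)) = d := by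
    push_cast
    field_simp
  rw [h, Real.rpow_natCast]

theorem asn_rp4 {p : ℕ} (hp : 1 ≤ p) {x : ℝ} (hx : 0 ≤ x) :
    (x ^ (2 * p)) ^ (1 / (2 * (p : ℝ))) = x := by
  have h := asn_rp2 (d := 1) hp hx
  rwa [Nat.cast_one, pow_one] at h

theorem asn_rp5 {p : ℕ} (hp : 1 ≤ p) {x : ℝ} (hx : 0 ≤ x) :
    (x ^ (1 / (2 * (p : ℝ)))) ^ (2 * p) = x := by
  rw [← Real.rpow_natCast, ← Real.rpow_mul hx]
  have : (p : ℝ) ≠ 0 := by
    have : p ≠ 0 := by omega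
    exact_mod_cast this
  have h : (1 / (2 * (p : ℝ))) * ((2 * p : ℕ) : ℝ) = 1 := by
    push_cast
    field_simp
  rw [h, Real.rpow_one]

theorem asn_rp3 {K t k : ℝ} (hK : 0 ≤ K) (ht : 0 < t) : (K / t) ^ k = K ^ k * t ^ (-k) := by
  rw [Real.div_rpow hK ht.le, Real.rpow_neg ht.le]
  rfl

/-- row ASN -/
theorem asn (gli : Pool.Agent.BEF.GliStmt) (_gdv : Pool.Agent.BEF.GdvStmt)
    (dfl : Pool.Agent.BEF.DflStmt) (cha : Pool.Agent.BEF.ChaStmt) (gbd : Pool.Agent.BEF.GbdStmt)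
    (apn : ApnStmt) (trz : Pool.Agent.BEF.TrzStmt) (ldn : LdnStmt) (len : LenStmt) : AsnStmt := by
  intro s p κ B β hp hκ hB hβ
  have hpp : (0 : ℝ) < p := by
    have : 0 < p := hp
    exact_mod_cast this
  have hpi := Real.pi_pos
  obtain ⟨Γ, hΓ⟩ : ∃ Γ, Γ = 2 * (max 1 B) ^ s * B + 1 := ⟨_, rfl⟩
  have hΓ0 : 0 < Γ := by rw [hΓ]; positivity
  obtain ⟨b0, hb0⟩ : ∃ b0, b0 = Γ ^ (2 * p) * (4 * Real.pi / (p * β)) := ⟨_, rfl⟩
  have hb00 : 0 < b0 := by rw [hb0]; positivity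
  obtain ⟨N, hN⟩ := exists_nat_ge (p * (κ * b0 + 3))
  refine ⟨2 * (p + N) + 1, ?_⟩
  intro X H _ _ _ _ W m a0 ω φ hm ha0 hω hωB hφB hE hD hS
  obtain ⟨c0, hc0⟩ : ∃ c0, c0 = a0 * ω ^ (2 * p) * β / (2 * Real.pi) := ⟨_, rfl⟩
  have hc0p : 0 < c0 := by rw [hc0]; positivity
  obtain ⟨K, hK⟩ : ∃ K, K = 2 / (p * c0) := ⟨_, rfl⟩
  have hKp : 0 < K := by rw [hK]; positivity
  obtain ⟨F1, F2, P, q, R, hF1, hF2, hA, hint⟩ := apn X H W m p N a0 ω φ hp hω hE hS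
  obtain ⟨d, hd⟩ : ∃ d, d = 2 * (p + N) + 3 := ⟨_, rfl⟩
  rw [← hd] at hA
  have hne : Nonempty (Fin m ⊕ Fin m) := ⟨Sum.inl ⟨0, hm⟩⟩
  have hneg : ∀ z : Fin m ⊕ Fin m → ℝ, ∑ i, z i * vf F1 z i ≤
      - (c0 * (∑ i, z i ^ 2) ^ (p + 1)) := by
    intro z
    rw [hc0]
    exact asn_neg W ha0 hω hD hint z
  obtain ⟨t1, c', z, ht1, hc', htr⟩ := trz (Fin m ⊕ Fin m) p c0 F1 F2 hp hc0p hF1 hF2 hneg
  obtain ⟨F, hF⟩ : ∃ F, F = F1 + F2 := ⟨_, rfl⟩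
  rw [← hF] at hA htr
  rw [← hK] at htr
  obtain ⟨C, hC, hbd⟩ := ldn X H W m p s a0 ω φ d F P q R hp hω hE hA
  obtain ⟨δ, hδ, hen⟩ := len X H W m p a0 ω φ d F P q R hp hω hE hA
  -- the radius and the time
  obtain ⟨ρ, hρ⟩ : ∃ ρ, ρ = min δ (ω / (C + 1)) := ⟨_, rfl⟩
  have hρ0 : 0 < ρ := by rw [hρ]; exact lt_min hδ (by positivity)
  have hρδ : ρ ≤ δ := by rw [hρ]; exact min_le_left _ _
  have hρC : ρ ≤ ω / (C + 1) := by rw [hρ]; exact min_le_right _ _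
  obtain ⟨T, hT⟩ : ∃ T, T = max t1 (K / ρ ^ (2 * p)) := ⟨_, rfl⟩
  have hT1 : t1 ≤ T := by rw [hT]; exact le_max_left _ _
  have hT2 : K / ρ ^ (2 * p) ≤ T := by rw [hT]; exact le_max_right _ _
  have hTpos : ∀ t > T, 0 < t := fun t ht => by linarith
  have hz1 : ∀ t > T, ‖z t‖ ^ (2 * p) ≤ K / t := by
    intro t ht
    have e1 := (htr t (lt_of_le_of_lt hT1 ht)).2.2.2
    have e2 : ‖z t‖ ^ (2 * p) ≤ (∑ i, z t i ^ 2) ^ p := by
      rw [pow_mul]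
      exact pow_le_pow_left₀ (sq_nonneg _) (asn_norm_sq_le _) p
    rw [le_div_iff₀ (hTpos t ht)]
    calc ‖z t‖ ^ (2 * p) * t ≤ (∑ i, z t i ^ 2) ^ p * t :=
          mul_le_mul_of_nonneg_right e2 (hTpos t ht).le
      _ = t * (∑ i, z t i ^ 2) ^ p := mul_comm _ _
      _ ≤ K := e1
  have hz2 : ∀ t > T, ‖z t‖ ≤ ρ := by
    intro t ht
    have e1 : K / t ≤ ρ ^ (2 * p) := by
      rw [div_le_iff₀ (hTpos t ht)]
      rw [div_le_iff₀ (by positivity)] at hT2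
      have e2 : T * ρ ^ (2 * p) ≤ t * ρ ^ (2 * p) :=
        mul_le_mul_of_nonneg_right ht.le (by positivity)
      linarith
    exact (pow_le_pow_iff_left₀ (norm_nonneg _) hρ0.le (by omega)).mp ((hz1 t ht).trans e1)
  have hz3 : ∀ t > T, ‖z t‖ ≤ 1 := fun t ht => (htr t (lt_of_le_of_lt hT1 ht)).2.1
  have hz4 : ∀ t > T, ‖z t‖ ≤ K ^ (1 / (2 * (p : ℝ))) * t ^ (-(1 / (2 * (p : ℝ)))) := by
    intro t ht
    rw [← asn_rp3 hKp.le (hTpos t ht), ← asn_rp4 hp (norm_nonneg (z t))]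
    exact Real.rpow_le_rpow (by positivity) (hz1 t ht) (by positivity)
  have hzd : ∀ t > T, HasDerivAt z (vf F (z t)) t := fun t ht =>
    (htr t (lt_of_le_of_lt hT1 ht)).1
  have hCz : ∀ t > T, C * ‖z t‖ ^ 2 ≤ ω * ‖z t‖ := by
    intro t ht
    have e1 : C * ‖z t‖ ≤ ω := by
      calc C * ‖z t‖ ≤ C * (ω / (C + 1)) :=
            mul_le_mul_of_nonneg_left ((hz2 t ht).trans hρC) hC
        _ ≤ ω := by
            rw [mul_div_assoc', div_le_iff₀ (by positivity)]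
            nlinarith
    calc C * ‖z t‖ ^ 2 = (C * ‖z t‖) * ‖z t‖ := by ring
      _ ≤ ω * ‖z t‖ := mul_le_mul_of_nonneg_right e1 (norm_nonneg _)
  -- the spaces
  have hFm := hA.F_mem
  obtain ⟨q', hq', hqe⟩ := hA.q_eq
  have hq1 : q ∈ GE (Fin m ⊕ Fin m) X 1 := by
    have e1 : qx φ ∈ GE (Fin m ⊕ Fin m) X 1 :=
      (gli (Fin m ⊕ Fin m) X X (ContinuousLinearMap.id ℝ X) 1 (qx φ)).2.2.1 (asn_qx φ)
    have e2 : q' ∈ GE (Fin m ⊕ Fin m) X 1 :=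
      (gli (Fin m ⊕ Fin m) X X (ContinuousLinearMap.id ℝ X) 1 q').2.2.2.1 1 hq'
    have e3 : q = (ω ^ 2) • qx φ + q' := by
      funext ψ z
      rw [hqe]
      rfl
    rw [e3]
    exact Submodule.add_mem _ (Submodule.smul_mem _ _ e1) e2
  have hPe : P = fun ψ z => W.SX (q ψ z) := by
    funext ψ z
    exact hA.P_eq ψ z
  have hP1 : P ∈ GE (Fin m ⊕ Fin m) X 1 := by
    rw [hPe]
    exact (gli (Fin m ⊕ Fin m) X X W.SX 1 q).2.1 hq1
  have hDX : ∀ Q : ℝ → (Fin m ⊕ Fin m → ℝ) → X, ∀ e, Q ∈ GE (Fin m ⊕ Fin m) X e →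
      DF ω F Q ∈ GE (Fin m ⊕ Fin m) X e := fun Q e hQ =>
    (dfl (Fin m ⊕ Fin m) X X (ContinuousLinearMap.id ℝ X) e e Q Q ω F F hQ hQ).2.2.2.2.2.2.2.2
      p hFm
  have hDit : ∀ Q : ℝ → (Fin m ⊕ Fin m → ℝ) → X, ∀ e, Q ∈ GE (Fin m ⊕ Fin m) X e →
      ∀ j : ℕ, (DF ω F)^[j] Q ∈ GE (Fin m ⊕ Fin m) X e := by
    intro Q e hQ j
    induction j with
    | zero => exact hQ
    | succ j ih =>
      rw [Function.iterate_succ_apply']
      exact hDX _ e ih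
  have hψ : ∀ t : ℝ, HasDerivAt (fun t => ω * t) ω t := by
    intro t
    have := (hasDerivAt_id t).const_mul ω
    simpa using this
  have hcX : ∀ Q : ℝ → (Fin m ⊕ Fin m → ℝ) → X, ∀ e, Q ∈ GE (Fin m ⊕ Fin m) X e →
      ∀ t > T, HasDerivAt (fun s => Q (ω * s) (z s)) (DF ω F Q (ω * t) (z t)) t :=
    fun Q e hQ t ht => cha (Fin m ⊕ Fin m) X e Q ω F (fun s => ω * s) z t hQ (hψ t) (hzd t ht)
  -- bounds of the residual
  have hRb : ∀ j : ℕ, ∃ N : ℝ, 0 ≤ N ∧ ∀ ψ z, ‖z‖ ≤ 1 → ‖(DF ω F)^[j] R ψ z‖ ≤ N * ‖z‖ ^ d :=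
    fun j => gbd (Fin m ⊕ Fin m) X d _ (hDit R d hA.R_mem j)
  choose Nj hNj hNb using hRb
  obtain ⟨k, hk⟩ : ∃ k : ℝ, k = (d : ℝ) / (2 * p) := ⟨_, rfl⟩
  have hk1 : κ * b0 + 3 < k := by
    rw [hk, lt_div_iff₀ (by positivity), hd]
    push_cast
    nlinarith
  have hκb : 0 ≤ κ * b0 := by positivity
  have haK : a0 * ω ^ (2 * p) * K = 4 * Real.pi / (p * β) := by
    rw [hK, hc0]
    field_simp
    ring
  refine ⟨k, T, Γ * ω * K ^ (1 / (2 * (p : ℝ))), (∑ j ∈ Finset.range (s + 1), Nj j) * K ^ k,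
    ω ^ 2 / 2 * c' ^ (1 / (p : ℝ)), 2 * ω ^ 2 * K ^ (1 / (p : ℝ)),
    fun j t => (DF ω F)^[j + 1] P (ω * t) (z t), fun j t => (DF ω F)^[j] R (ω * t) (z t),
    fun t => q (ω * t) (z t), by linarith, ?_, ?_⟩
  · have e1 : (Γ * ω * K ^ (1 / (2 * (p : ℝ)))) ^ (2 * p) = Γ ^ (2 * p) * (ω ^ (2 * p) * K) := by
      rw [mul_pow, mul_pow, asn_rp5 hp hKp.le, mul_assoc]
    rw [e1]
    have e2 : a0 * κ * (Γ ^ (2 * p) * (ω ^ (2 * p) * K)) =
        κ * (Γ ^ (2 * p) * (a0 * ω ^ (2 * p) * K)) := by ring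
    rw [e2, haK, ← hb0]
    linarith
  · refine
      { t1_le := ht1.trans hT1
        c_pos := by positivity
        w_der := ?_
        w_cont := ?_
        w_le := ?_
        r_der := ?_
        r_cont := ?_
        r_le := ?_
        w_SX := ?_
        g_cont := ?_
        g_der := ?_
        res := ?_
        en := ?_ }
    · intro j _ t ht
      have h := hcX _ 1 (hDit P 1 hP1 (j + 1)) t ht
      rw [← Function.iterate_succ_apply' (DF ω F) (j + 1) P] at h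
      exact h
    · exact fun t ht =>
        (hcX _ 1 (hDit P 1 hP1 (s + 1)) t ht).continuousAt.continuousWithinAt
    · intro j hj t ht
      have e1 := hbd j hj (ω * t) (z t) (hz3 t ht)
      have e2 := hCz t ht
      have e3 : ω ^ j ≤ (max 1 B) ^ s := by
        calc ω ^ j ≤ (max 1 B) ^ j :=
              pow_le_pow_left₀ hω.le (hωB.trans (le_max_right _ _)) j
          _ ≤ (max 1 B) ^ s := pow_le_pow_right₀ (le_max_left _ _) hj
      have e4 : 2 * ω ^ (j + 1) * (∑ i, ‖φ i‖) ≤ ω * (2 * (max 1 B) ^ s * B) := by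
        have h0 : 0 ≤ ∑ i, ‖φ i‖ := Finset.sum_nonneg fun i _ => norm_nonneg _
        calc 2 * ω ^ (j + 1) * (∑ i, ‖φ i‖) = ω * (2 * ω ^ j * (∑ i, ‖φ i‖)) := by
              rw [pow_succ]
              ring
          _ ≤ ω * (2 * (max 1 B) ^ s * B) := by
              refine mul_le_mul_of_nonneg_left ?_ hω.le
              exact mul_le_mul (mul_le_mul_of_nonneg_left e3 (by norm_num)) hφB h0
                (by positivity)
      have e5 : ‖(DF ω F)^[j + 1] P (ω * t) (z t)‖ ≤ Γ * ω * ‖z t‖ := by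
        have e6 := mul_le_mul_of_nonneg_right e4 (norm_nonneg (z t))
        rw [hΓ]
        calc ‖(DF ω F)^[j + 1] P (ω * t) (z t)‖
            ≤ 2 * ω ^ (j + 1) * (∑ i, ‖φ i‖) * ‖z t‖ + C * ‖z t‖ ^ 2 := e1
          _ ≤ ω * (2 * (max 1 B) ^ s * B) * ‖z t‖ + ω * ‖z t‖ := add_le_add e6 e2
          _ = (2 * (max 1 B) ^ s * B + 1) * ω * ‖z t‖ := by ring
      show ‖(DF ω F)^[j + 1] P (ω * t) (z t)‖ ≤ _
      calc ‖(DF ω F)^[j + 1] P (ω * t) (z t)‖ ≤ Γ * ω * ‖z t‖ := e5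
        _ ≤ Γ * ω * (K ^ (1 / (2 * (p : ℝ))) * t ^ (-(1 / (2 * (p : ℝ))))) :=
          mul_le_mul_of_nonneg_left (hz4 t ht) (by positivity)
        _ = _ := by ring
    · intro j _ t ht
      have h := hcX _ d (hDit R d hA.R_mem j) t ht
      rw [← Function.iterate_succ_apply' (DF ω F) j R] at h
      exact h
    · exact fun t ht =>
        (hcX _ d (hDit R d hA.R_mem s) t ht).continuousAt.continuousWithinAt
    · intro j hj t ht
      have e0 := hNb j (ω * t) (z t) (hz3 t ht)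
      have e3 : ‖z t‖ ^ d ≤ K ^ k * t ^ (-k) := by
        rw [← asn_rp3 hKp.le (hTpos t ht), ← asn_rp2 (d := d) hp (norm_nonneg (z t)), ← hk]
        exact Real.rpow_le_rpow (by positivity) (hz1 t ht) (by linarith)
      have e4 : Nj j ≤ ∑ j ∈ Finset.range (s + 1), Nj j :=
        Finset.single_le_sum (f := Nj) (fun i _ => hNj i) (Finset.mem_range.2 (by omega))
      have e5 : 0 ≤ ∑ j ∈ Finset.range (s + 1), Nj j := Finset.sum_nonneg fun i _ => hNj i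
      show ‖(DF ω F)^[j] R (ω * t) (z t)‖ ≤ _
      calc ‖(DF ω F)^[j] R (ω * t) (z t)‖ ≤ Nj j * ‖z t‖ ^ d := e0
        _ ≤ (∑ j ∈ Finset.range (s + 1), Nj j) * (K ^ k * t ^ (-k)) :=
          mul_le_mul e4 e3 (by positivity) e5
        _ = _ := by ring
    · intro t ht
      refine ⟨DF ω F q (ω * t) (z t), ?_⟩
      have e1 := (dfl (Fin m ⊕ Fin m) X X W.SX 1 1 q q ω F F hq1 hq1).2.2.2.2.2.2.2.1
      show DF ω F P (ω * t) (z t) = W.SX (DF ω F q (ω * t) (z t))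
      rw [hPe, e1]
    · exact fun t ht => (hcX q 1 hq1 t ht).continuousAt.continuousWithinAt
    · intro t ht
      have e1 := hcX P 1 hP1 t ht
      have e2 : (fun r => W.SX (q (ω * r) (z r))) = fun r => P (ω * r) (z r) := by
        funext r
        rw [hA.P_eq]
      show HasDerivAt (fun r => W.SX (q (ω * r) (z r))) (DF ω F P (ω * t) (z t)) t
      rw [e2]
      exact e1
    · intro t ht
      exact (hA.res (ω * t) (z t)).symm
    · intro t ht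
      have e0 := htr t (lt_of_le_of_lt hT1 ht)
      have et := hTpos t ht
      have es : 0 ≤ ∑ i, z t i ^ 2 := Finset.sum_nonneg (fun i _ => sq_nonneg _)
      obtain ⟨e1, e2⟩ := hen (ω * t) (z t) ((hz2 t ht).trans hρδ)
      have hi : (0 : ℝ) ≤ 1 / (p : ℝ) := by positivity
      have e3 : c' ^ (1 / (p : ℝ)) * t ^ (-(1 / (p : ℝ))) ≤ ∑ i, z t i ^ 2 := by
        rw [← asn_rp3 hc'.le et, ← asn_rp1 hp es]
        apply Real.rpow_le_rpow (by positivity) _ hi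
        rw [div_le_iff₀ et]
        linarith [e0.2.2.1]
      have e4 : ∑ i, z t i ^ 2 ≤ K ^ (1 / (p : ℝ)) * t ^ (-(1 / (p : ℝ))) := by
        rw [← asn_rp3 hKp.le et, ← asn_rp1 hp es]
        apply Real.rpow_le_rpow (by positivity) _ hi
        rw [le_div_iff₀ et]
        linarith [e0.2.2.2]
      have hω2 : 0 < ω ^ 2 := by positivity
      show ω ^ 2 / 2 * c' ^ (1 / (p : ℝ)) * t ^ (-(1 / (p : ℝ))) ≤
          ‖W.e (DF ω F P (ω * t) (z t))‖ ^ 2 + ‖W.R (W.e (q (ω * t) (z t)))‖ ^ 2 ∧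
        ‖W.e (DF ω F P (ω * t) (z t))‖ ^ 2 + ‖W.R (W.e (q (ω * t) (z t)))‖ ^ 2 ≤
          2 * ω ^ 2 * K ^ (1 / (p : ℝ)) * t ^ (-(1 / (p : ℝ)))
      constructor
      · calc ω ^ 2 / 2 * c' ^ (1 / (p : ℝ)) * t ^ (-(1 / (p : ℝ)))
            = ω ^ 2 / 2 * (c' ^ (1 / (p : ℝ)) * t ^ (-(1 / (p : ℝ)))) := by ring
          _ ≤ ω ^ 2 / 2 * ∑ i, z t i ^ 2 := mul_le_mul_of_nonneg_left e3 (by positivity)
          _ ≤ _ := e1
      · calc ‖W.e (DF ω F P (ω * t) (z t))‖ ^ 2 + ‖W.R (W.e (q (ω * t) (z t)))‖ ^ 2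
            ≤ 2 * ω ^ 2 * ∑ i, z t i ^ 2 := e2
          _ ≤ 2 * ω ^ 2 * (K ^ (1 / (p : ℝ)) * t ^ (-(1 / (p : ℝ)))) :=
            mul_le_mul_of_nonneg_left e4 (by positivity)
          _ = _ := by ring

end

end Pool.Agent.BEN.H23
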