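import Pool.Agent.BEN.StmtsB

/-!
# Squad BEN, row FNN: Theorem F in all dimensions, finite form
-/

set_option autoImplicit false

namespace Pool.Agent.BEN.H23

open Set Filter Topology MeasureTheory
open scoped InnerProductSpace ENNReal
open Pool.Agent.BE01 Pool.Agent.BEL Pool.Agent.BEF Pool.Agent.BEH Pool.Agent.BEN

noncomputable section

theorem fnn_fin {d : ℕ} {Ω : Set (En d)} (h : Dom Ω) : IsFiniteMeasure (mu Ω) := by
  refine ⟨?_⟩
  rw [mu, Measure.restrict_apply_univ]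
  exact h.2.1.measure_lt_top

/-- powers in `X` -/
theorem fnn_pow {T : Type} [MeasurableSpace T] {μ : Measure T} {X : Type} [NormedCommRing X]
    [NormedAlgebra ℝ X] {W : Wx X (Lp ℝ 2 μ)} (hX : Xok W) (x : X) (n : ℕ) :
    W.e (x ^ (n + 1)) =ᵐ[μ] fun z => W.e x z ^ (n + 1) := by
  induction n with
  | zero => simp
  | succ n ih =>
    rw [pow_succ]
    filter_upwards [hX.mul (x ^ (n + 1)) x, ih] with z h1 h2
    rw [h1, h2]
    ring

/-- positivity -/
theorem fnn_pos {T : Type} [MeasurableSpace T] {μ : Measure T} [IsFiniteMeasure μ] {X : Type}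
    [NormedCommRing X] [NormedAlgebra ℝ X] {W : Wx X (Lp ℝ 2 μ)} (hX : Xok W) (p : ℕ) (x : X)
    (hx : x ≠ 0) : 0 < ⟪W.e (x ^ (2 * p + 1)), W.e x⟫_ℝ := by
  rw [L2.inner_def]
  have h1 : (fun z => ⟪W.e (x ^ (2 * p + 1)) z, W.e x z⟫_ℝ) =ᵐ[μ]
      fun z => W.e x z ^ (2 * p + 2) := by
    filter_upwards [fnn_pow hX x (2 * p)] with z hz
    rw [hz, real_inner_eq_re_inner, RCLike.inner_apply]
    simp only [conj_trivial, RCLike.re_to_real]
    ring
  rw [integral_congr_ae h1]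
  have h0 : (0 : T → ℝ) ≤ fun z => W.e x z ^ (2 * p + 2) := fun z => by
    have : 2 * p + 2 = 2 * (p + 1) := by ring
    show (0 : ℝ) ≤ W.e x z ^ (2 * p + 2)
    rw [this, pow_mul]
    positivity
  have hint : Integrable (fun z => W.e x z ^ (2 * p + 2)) μ := by
    refine (integrable_congr h1).1 ?_
    exact L2.integrable_inner _ _
  rcases (integral_nonneg h0).lt_or_eq with h | h
  · exact h
  · exfalso
    have h2 := (integral_eq_zero_iff_of_nonneg h0 hint).1 h.symm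
    apply hx
    apply W.e_inj
    rw [map_zero]
    rw [Lp.eq_zero_iff_ae_eq_zero]
    filter_upwards [h2] with z hz
    exact pow_eq_zero_iff (by omega) |>.1 hz

theorem fnn (hW : WxcStmt) (hM : MaiStmt) (hS : SlxStmt) (hN : NexStmt) : FnnStmt := by
  intro d Ω p l φ hd hΩ hp hφ hl
  haveI := fnn_fin hΩ
  obtain ⟨C0, hC0, hW⟩ := hW d Ω hd hΩ
  obtain ⟨X, i1, i2, W, Z, hX, hWk, hSb⟩ := hW Ω hΩ (subset_refl _)
  have e1 : φ = l • W.S φ := (hWk.eig l φ).1 hl
  have hl0 : 0 < l := by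
    have h1 : 0 < ⟪φ, φ⟫_ℝ := by
      rw [real_inner_self_eq_norm_sq]
      exact pow_pos (norm_pos_iff.2 hφ) 2
    have h2 : ⟪φ, φ⟫_ℝ = l * ‖Z φ‖ ^ 2 := by
      rw [hWk.nrm φ]
      nth_rewrite 2 [e1]
      rw [real_inner_smul_right]
    rw [h2] at h1
    by_contra hcon
    push Not at hcon
    have h3 : l * ‖Z φ‖ ^ 2 ≤ 0 := mul_nonpos_of_nonpos_of_nonneg hcon (sq_nonneg _)
    linarith
  have hω : 0 < √l := Real.sqrt_pos.2 hl0
  have hsq : √l ^ 2 = l := Real.sq_sqrt hl0.le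
  obtain ⟨m, φ', hE, hsp, hSl⟩ := hS (En d) (mu Ω) d C0 (√l) X W hd hX hSb hWk.comp hω
  have hm : 1 ≤ m := by
    rcases Nat.eq_zero_or_pos m with h | h
    · exfalso
      subst h
      have h1 := hsp φ (by rw [hsq]; exact e1)
      rw [Set.range_eq_empty, Submodule.span_empty, Submodule.mem_bot] at h1
      exact hφ h1
    · exact h
  obtain ⟨c, hc, hD⟩ := hN X (Lp ℝ 2 (mu Ω)) W m p (√l) φ' hp hE (fun x hx => fnn_pos hX p x hx)
  set B : ℝ := max (√l) (∑ i, ‖φ' i‖) + 1 with hB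
  have hB0 : 0 < B := by
    have : √l ≤ max (√l) (∑ i, ‖φ' i‖) := le_max_left _ _
    linarith
  obtain ⟨M, hM⟩ := hM d Ω p C0 B c hd hΩ hp hC0 hB0 hc
  refine ⟨M, fun h a ha => ?_⟩
  refine hM Ω hΩ (subset_refl _) X W Z hX hWk hSb m a (√l) φ' hm ha hω ?_ ?_ hE hD ?_
  · have : √l ≤ max (√l) (∑ i, ‖φ' i‖) := le_max_left _ _
    linarith
  · have : ∑ i, ‖φ' i‖ ≤ max (√l) (∑ i, ‖φ' i‖) := le_max_right _ _
    linarith
  · refine hSl M (fun n hn h3 hnM u hu => ?_)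
    refine h n hn h3 hnM u ?_
    rw [hWk.eig]
    rw [hsq] at hu
    exact hu

end

end Pool.Agent.BEN.H23
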